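import Mathlib
import Pool.Agent.Lib_helper3.QUI.Quad

/-!
Number fields of odd degree: the signs of `N(n^2 - z)` and two relations between them.
-/

namespace Pool.Agent.Lib_helper48.EVEN

open Pool.Agent.Lib_helper11.CUB Pool.Agent.Lib_helper3.QUI

variable {K : Type*} [Field K] [NumberField K]

/-- The sign of `N(n^2 - z)`. -/
noncomputable def S (h : ℕ → ℤ) (z : K) (n : ℚ) : ℤ := H h (Algebra.norm ℚ ((n : K) ^ 2 - z))

/-- The sign at the first integer after `x`. -/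
noncomputable def sg (h : ℕ → ℤ) (x : ℚ) (z : K) : ℤ := S h z ((⌈x⌉ : ℤ) : ℚ)

/-- The sign of `N(n^2 - z)` is constant for `n ∈ (1/D)ℤ ∩ [x, X]`. -/
def Cst (h : ℕ → ℤ) (D : ℕ) (x X : ℚ) (z : K) : Prop :=
  ∀ n : ℚ, (D : ℚ) * n ∈ ZZ → x ≤ n → n ≤ X → S h z n = sg h x z

theorem Cst.mono {h : ℕ → ℤ} {D E : ℕ} {x X X' : ℚ} {z : K} (hDE : D ∣ E) (hX : X ≤ X')
    (H : Cst h E x X' z) : Cst h D x X z :=
  fun n hn h1 h2 => H n (mul_mem_ZZ_of_dvd hDE hn) h1 (h2.trans hX)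

/-- The relation `Q` between the signs holds if the signs along the elements of `L` are constant. -/
def Ev (L : List K) (Q : (ℕ → ℤ) → (K → ℤ) → Prop) : Prop :=
  ∃ D : ℕ, 1 ≤ D ∧ ∃ C : ℚ, 2 ≤ C ∧ ∀ h : ℕ → ℤ, CM h → ∀ x : ℚ, 1 ≤ x →
    (∀ z ∈ L, Cst h D x (C * x ^ 2) z) → Q h (sg h x)

theorem Ev.and {L L' : List K} {Q Q' : (ℕ → ℤ) → (K → ℤ) → Prop} (h1 : Ev L Q) (h2 : Ev L' Q') :
    Ev (L ++ L') (fun h e => Q h e ∧ Q' h e) := by
  obtain ⟨D, hD, C, hC, h1⟩ := h1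
  obtain ⟨D', hD', C', hC', h2⟩ := h2
  refine ⟨D * D', Nat.mul_pos hD hD', max C C', hC.trans (le_max_left _ _), fun h hh x hx hall => ?_⟩
  have k1 : C * x ^ 2 ≤ max C C' * x ^ 2 :=
    mul_le_mul_of_nonneg_right (le_max_left _ _) (sq_nonneg _)
  have k2 : C' * x ^ 2 ≤ max C C' * x ^ 2 :=
    mul_le_mul_of_nonneg_right (le_max_right _ _) (sq_nonneg _)
  exact ⟨h1 h hh x hx fun z hz => (hall z (List.mem_append_left _ hz)).mono (dvd_mul_right _ _) k1,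
    h2 h hh x hx fun z hz => (hall z (List.mem_append_right _ hz)).mono (dvd_mul_left _ _) k2⟩

theorem Ev.imp {L : List K} {Q Q' : (ℕ → ℤ) → (K → ℤ) → Prop} (h1 : Ev L Q)
    (h2 : ∀ h : ℕ → ℤ, CM h → ∀ x : ℚ, Q h (sg (K := K) h x) → Q' h (sg h x)) : Ev L Q' := by
  obtain ⟨D, hD, C, hC, h1⟩ := h1
  exact ⟨D, hD, C, hC, fun h hh x hx hall => h2 h hh x (h1 h hh x hx hall)⟩

theorem Ev.sub {L L' : List K} {Q : (ℕ → ℤ) → (K → ℤ) → Prop} (h1 : Ev L Q)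
    (h2 : ∀ z ∈ L, z ∈ L') : Ev L' Q := by
  obtain ⟨D, hD, C, hC, h1⟩ := h1
  exact ⟨D, hD, C, hC, fun h hh x hx hall => h1 h hh x hx fun z hz => hall z (h2 z hz)⟩

theorem sq_sub_ne {z : K} (hz : z ∉ (⊥ : IntermediateField ℚ K)) (n : ℚ) : (n : K) ^ 2 - z ≠ 0 := by
  intro h
  exact hz (mem_bot_iff.2 ⟨n ^ 2, by push_cast; exact sub_eq_zero.1 h⟩)

theorem S_vals {h : ℕ → ℤ} (hh : CM h) {z : K} (hz : z ∉ (⊥ : IntermediateField ℚ K)) (n : ℚ) :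
    S h z n = 1 ∨ S h z n = -1 := H_vals hh (norm_ne (sq_sub_ne hz n))

theorem sg_vals {h : ℕ → ℤ} (hh : CM h) {z : K} (hz : z ∉ (⊥ : IntermediateField ℚ K)) (x : ℚ) :
    sg h x z = 1 ∨ sg h x z = -1 := S_vals hh hz _

theorem S_abs (h : ℕ → ℤ) (z : K) (n : ℚ) : S h z |n| = S h z n := by
  unfold S
  have : ((|n| : ℚ) : K) ^ 2 = (n : K) ^ 2 := by
    have := sq_abs n
    exact_mod_cast this
  rw [this]

theorem affine_not_mem {z : K} (hz : z ∉ (⊥ : IntermediateField ℚ K)) {r : ℚ} (hr : r ≠ 0) (s : ℚ) :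
    (r : K) * z + s ∉ (⊥ : IntermediateField ℚ K) := by
  intro h
  obtain ⟨k, hk⟩ := mem_bot_iff.1 h
  apply hz
  refine mem_bot_iff.2 ⟨(k - s) / r, ?_⟩
  have hrK : (r : K) ≠ 0 := by exact_mod_cast hr
  push_cast
  rw [hk]
  field_simp
  ring

/-- Points of the conic `n^2 - q m^2 = a^2 - q b^2`, at every scale. -/
theorem pell_points {q : ℚ} (hq : 0 < q) (hns : ¬ IsSquare q) (l : List (ℚ × ℚ))
    (hl : ∀ f ∈ l, f ≠ (0, 0)) :
    ∃ D : ℕ, 1 ≤ D ∧ ∃ C : ℚ, 1 ≤ C ∧ ∀ x : ℚ, 1 ≤ x → ∃ X Y : ℚ, X ^ 2 - q * Y ^ 2 = 1 ∧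
      ∀ f ∈ l, (D : ℚ) * (f.1 * X + f.2 * Y) ∈ ZZ ∧ x ≤ |f.1 * X + f.2 * Y| ∧
        |f.1 * X + f.2 * Y| ≤ C * x := by
  obtain ⟨Q, d, hd0, hQ, hQs⟩ := nat_class hq hns
  obtain ⟨l', hl'⟩ : ∃ l' : List (ℚ × ℚ × ℚ), l' = l.map (fun f => (f.1, f.2 * d, 0)) := ⟨_, rfl⟩
  obtain ⟨C, hC, hforms⟩ := forms hQs l' (by
    intro f hf
    rw [hl'] at hf
    obtain ⟨g, hg, rfl⟩ := List.mem_map.1 hf
    simp only [disc]
    rw [hQ]
    intro h0
    have h1 : q * g.1 ^ 2 - g.2 ^ 2 = 0 := by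
      have h2 : d ^ 2 * (q * g.1 ^ 2 - g.2 ^ 2) = 0 := by linear_combination h0
      rcases mul_eq_zero.1 h2 with h3 | h3
      · exact absurd (pow_eq_zero_iff (by norm_num) |>.1 h3) hd0
      · exact h3
    by_cases h3 : g.1 = 0
    · apply hl g hg
      rw [h3] at h1
      have h4 : g.2 ^ 2 = 0 := by linear_combination -h1
      have h5 : g.2 = 0 := pow_eq_zero_iff (by norm_num) |>.1 h4
      exact Prod.ext h3 h5
    · apply hns
      refine ⟨g.2 / g.1, ?_⟩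
      field_simp
      linear_combination h1)
  obtain ⟨D, hD1, hDl⟩ := common_den_forms l'
  refine ⟨D, hD1, C, hC, fun x hx => ?_⟩
  obtain ⟨X, Y, hXY, hF⟩ := hforms x hx
  refine ⟨X, d * Y, ?_, fun f hf => ?_⟩
  · rw [hQ] at hXY
    linear_combination hXY
  · have hf' : (f.1, f.2 * d, (0 : ℚ)) ∈ l' := by
      rw [hl']; exact List.mem_map.2 ⟨f, hf, rfl⟩
    obtain ⟨A1, -, -⟩ := hF _ hf'
    have A2 := A1 1 1 (Or.inl rfl) (Or.inl rfl)
    have e : val (f.1, f.2 * d, (0 : ℚ)) X Y 1 1 = f.1 * X + f.2 * (d * Y) := by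
      simp only [val]; ring
    rw [e] at A2
    obtain ⟨k1, k2, k3⟩ := hDl _ hf'
    have k4 := val_lat k1 k2 k3 X Y (e₁ := 1) (e₂ := 1) (Or.inl rfl) (Or.inl rfl)
    rw [e] at k4
    exact ⟨k4, A2⟩

/-- First relation: `n^2 - z = q (m^2 - (z - c) / q)` if `n^2 - q m^2 = c`. -/
theorem rel_lin (hd : Odd (Module.finrank ℚ K)) {z : K} (hz : z ∉ (⊥ : IntermediateField ℚ K))
    {q : ℚ} (hq : 0 < q) (hns : ¬ IsSquare q) {a b : ℚ} (hab : a ≠ 0 ∨ b ≠ 0) :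
    Ev [z, (z - ((a ^ 2 - q * b ^ 2 : ℚ) : K)) / q]
      (fun h e => e z = H h q * e ((z - ((a ^ 2 - q * b ^ 2 : ℚ) : K)) / q)) := by
  have hq0 : q ≠ 0 := hq.ne'
  have hqK : (q : K) ≠ 0 := by exact_mod_cast hq0
  obtain ⟨D, hD, C, hC, hP⟩ := pell_points hq hns [(a, q * b), (b, a)] (by
    intro f hf
    simp only [List.mem_cons, List.not_mem_nil, or_false] at hf
    rcases hf with rfl | rfl
    · intro h0
      have h1 := congrArg Prod.fst h0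
      have h2 := congrArg Prod.snd h0
      simp only at h1 h2
      rcases hab with h3 | h3
      · exact h3 h1
      · exact h3 ((mul_eq_zero.1 h2).resolve_left hq0)
    · intro h0
      have h1 := congrArg Prod.fst h0
      have h2 := congrArg Prod.snd h0
      simp only at h1 h2
      rcases hab with h3 | h3
      · exact h3 h2
      · exact h3 h1)
  refine ⟨D, hD, C + 1, by linarith, fun h hh x hx hall => ?_⟩
  obtain ⟨X, Y, hXY, hF⟩ := hP x hx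
  obtain ⟨n1, n2, n3⟩ := hF (a, q * b) (by simp)
  obtain ⟨m1, m2, m3⟩ := hF (b, a) (by simp)
  simp only at n1 n2 n3 m1 m2 m3
  have hCx : C * x ≤ (C + 1) * x ^ 2 := by nlinarith
  have labs : ∀ y : ℚ, (D : ℚ) * y ∈ ZZ → (D : ℚ) * |y| ∈ ZZ := by
    intro y hy
    rcases abs_choice y with h1 | h1 <;> rw [h1]
    · exact hy
    · rw [mul_neg]; exact neg_mem hy
  obtain ⟨w, hw⟩ : ∃ w : K, w = (z - ((a ^ 2 - q * b ^ 2 : ℚ) : K)) / q := ⟨_, rfl⟩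
  rw [← hw] at hall ⊢
  have hwb : w ∉ (⊥ : IntermediateField ℚ K) := by
    have h1 := affine_not_mem hz (inv_ne_zero hq0) (-((a ^ 2 - q * b ^ 2) / q))
    have h2 : ((q⁻¹ : ℚ) : K) * z + ((-((a ^ 2 - q * b ^ 2) / q) : ℚ) : K) = w := by
      rw [hw]; push_cast; field_simp; ring
    rwa [h2] at h1
  have s1 := hall z (by simp) _ (labs _ n1) n2 (n3.trans hCx)
  have s2 := hall w (by simp) _ (labs _ m1) m2 (m3.trans hCx)
  rw [S_abs] at s1 s2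
  rw [← s1, ← s2]
  have key : ((a * X + q * b * Y : ℚ) : K) ^ 2 - z = q * (((b * X + a * Y : ℚ) : K) ^ 2 - w) := by
    have e1 : ((a * X + q * b * Y : ℚ) : K) ^ 2 - q * ((b * X + a * Y : ℚ) : K) ^ 2 =
        ((a ^ 2 - q * b ^ 2 : ℚ) : K) := by
      have : (a * X + q * b * Y) ^ 2 - q * (b * X + a * Y) ^ 2 = a ^ 2 - q * b ^ 2 := by
        linear_combination (a ^ 2 - q * b ^ 2) * hXY
      exact_mod_cast this
    have e2 : (q : K) * w = z - ((a ^ 2 - q * b ^ 2 : ℚ) : K) := by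
      rw [hw]; field_simp
    linear_combination e1 + e2
  unfold S
  rw [key, H_norm_mul hh hqK (sq_sub_ne hwb _), H_norm_q hd hh hq0]

/-- Second relation: `(n^2 - (1 + t) / 2) (n^2 - (1 - t) / 2) = q ((n m)^2 - (t^2 - 1) / (4 q))` if
`n^2 - q m^2 = 1`. -/
theorem rel_star (hd : Odd (Module.finrank ℚ K)) {t : K} (ht : t ∉ (⊥ : IntermediateField ℚ K))
    {q : ℚ} (hq : 0 < q) (hns : ¬ IsSquare q) :
    Ev [(1 + t) / 2, (1 - t) / 2, (t ^ 2 - 1) / (4 * q)]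
      (fun h e => e ((1 + t) / 2) * e ((1 - t) / 2) = H h q * e ((t ^ 2 - 1) / (4 * q))) := by
  have hq0 : q ≠ 0 := hq.ne'
  have hqK : (q : K) ≠ 0 := by exact_mod_cast hq0
  obtain ⟨D, hD, C, hC, hP⟩ := pell_points hq hns [(1, 0), (0, 1)] (by
    intro f hf
    simp only [List.mem_cons, List.not_mem_nil, or_false] at hf
    rcases hf with rfl | rfl
    · intro h0
      have h1 := congrArg Prod.fst h0
      simp at h1
    · intro h0
      have h1 := congrArg Prod.snd h0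
      simp at h1)
  refine ⟨D * D, Nat.mul_pos hD hD, C ^ 2 + 1, by nlinarith, fun h hh x hx hall => ?_⟩
  obtain ⟨X, Y, hXY, hF⟩ := hP x hx
  obtain ⟨n1, n2, n3⟩ := hF (1, 0) (by simp)
  obtain ⟨m1, m2, m3⟩ := hF (0, 1) (by simp)
  simp only [one_mul, zero_mul, add_zero, zero_add] at n1 n2 n3 m1 m2 m3
  have hCx : C * x ≤ (C ^ 2 + 1) * x ^ 2 := by nlinarith [mul_le_mul hC hC (by norm_num) (by linarith)]
  have labs : ∀ (E : ℕ) (y : ℚ), (E : ℚ) * y ∈ ZZ → (E : ℚ) * |y| ∈ ZZ := by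
    intro E y hy
    rcases abs_choice y with h1 | h1 <;> rw [h1]
    · exact hy
    · rw [mul_neg]; exact neg_mem hy
  have hnm : ((D * D : ℕ) : ℚ) * (X * Y) ∈ ZZ := by
    have : ((D * D : ℕ) : ℚ) * (X * Y) = (D * X) * (D * Y) := by push_cast; ring
    rw [this]; exact mul_mem n1 m1
  have hn' : ((D * D : ℕ) : ℚ) * X ∈ ZZ := mul_mem_ZZ_of_dvd (dvd_mul_right _ _) n1
  have k1 : x ≤ |X * Y| := by
    rw [abs_mul]
    calc x = x * 1 := by ring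
      _ ≤ |X| * |Y| := mul_le_mul n2 (hx.trans m2) (by norm_num) (abs_nonneg _)
  have k2 : |X * Y| ≤ (C ^ 2 + 1) * x ^ 2 := by
    rw [abs_mul]
    calc |X| * |Y| ≤ (C * x) * (C * x) := mul_le_mul n3 m3 (abs_nonneg _) (by positivity)
      _ ≤ (C ^ 2 + 1) * x ^ 2 := by nlinarith [sq_nonneg x]
  obtain ⟨u, hu⟩ : ∃ u : K, u = (1 + t) / 2 := ⟨_, rfl⟩
  obtain ⟨v, hv⟩ : ∃ v : K, v = (1 - t) / 2 := ⟨_, rfl⟩
  obtain ⟨w, hw⟩ : ∃ w : K, w = (t ^ 2 - 1) / (4 * q) := ⟨_, rfl⟩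
  rw [← hu, ← hv, ← hw] at hall ⊢
  have hub : u ∉ (⊥ : IntermediateField ℚ K) := by
    have h1 := affine_not_mem ht (r := 1 / 2) (by norm_num) (1 / 2)
    have h2 : ((1 / 2 : ℚ) : K) * t + ((1 / 2 : ℚ) : K) = u := by
      rw [hu]; push_cast; ring
    rwa [h2] at h1
  have hvb : v ∉ (⊥ : IntermediateField ℚ K) := by
    have h1 := affine_not_mem ht (r := -1 / 2) (by norm_num) (1 / 2)
    have h2 : ((-1 / 2 : ℚ) : K) * t + ((1 / 2 : ℚ) : K) = v := by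
      rw [hv]; push_cast; ring
    rwa [h2] at h1
  have hwb : w ∉ (⊥ : IntermediateField ℚ K) := by
    intro hm
    obtain ⟨k, hk⟩ := mem_bot_iff.1 hm
    apply ht
    apply quadratic_bot hd (A := 1) (B := 0) (C := -(1 + 4 * q * k)) one_ne_zero
    have h1 : (4 * (q : K)) * w = t ^ 2 - 1 := by rw [hw]; field_simp
    rw [← hk] at h1
    push_cast
    linear_combination -h1
  have s1 := hall u (by simp) _ (labs _ _ hn') n2 (n3.trans hCx)
  have s2 := hall v (by simp) _ (labs _ _ hn') n2 (n3.trans hCx)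
  have s3 := hall w (by simp) _ (labs _ _ hnm) k1 k2
  rw [S_abs] at s1 s2 s3
  rw [← s1, ← s2, ← s3]
  have key : ((X : K) ^ 2 - u) * ((X : K) ^ 2 - v) = q * (((X * Y : ℚ) : K) ^ 2 - w) := by
    have e1 : (X : K) ^ 2 - q * (Y : K) ^ 2 = 1 := by exact_mod_cast hXY
    have e2 : (4 * (q : K)) * w = t ^ 2 - 1 := by rw [hw]; field_simp
    rw [hu, hv]
    push_cast
    linear_combination ((X : K) ^ 2) * e1 + (1 / 4 : K) * e2
  unfold S
  rw [← H_norm_mul hh (sq_sub_ne hub _) (sq_sub_ne hvb _), key,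
    H_norm_mul hh hqK (sq_sub_ne hwb _), H_norm_q hd hh hq0]

end Pool.Agent.Lib_helper48.EVEN
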