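import Mathlib
import Pool.Agent.Lib_helper3.QUI.Bridge
import Pool.Agent.Lib_helper48.EVEN.Base

/-!
Number fields of odd degree: generators whose norm is not a square, and the relations between them.
-/

namespace Pool.Agent.Lib_helper48.EVEN

open Pool.Agent.Lib_helper11.CUB Pool.Agent.Lib_helper3.QUI Polynomial

variable {K : Type*} [Field K] [NumberField K]

/-- `z` generates the field. -/
def Gen (z : K) : Prop := (minpoly ℚ z).natDegree = Module.finrank ℚ K

/-- `z` generates the field, and its norm is not a square. -/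
def Good (z : K) : Prop := Gen z ∧ ¬ IsSquare (Algebra.norm ℚ z)

theorem gen_affine {u : K} (hu : Gen u) {r : ℚ} (hr : r ≠ 0) (s : ℚ) : Gen ((r : K) * u + s) := by
  have h1 := deg_mul hu hr
  unfold Gen
  have e : (r : K) * u + s = (r : K) * u + algebraMap ℚ K s := by simp
  rw [e, minpoly.add_algebraMap, natDegree_comp, natDegree_X_sub_C, mul_one, h1]

theorem gen_sq (hd : Odd (Module.finrank ℚ K)) {u : K} (hu : Gen u) : Gen (u ^ 2) := by
  have hint : IsIntegral ℚ (u ^ 2) := Algebra.IsIntegral.isIntegral _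
  have h1 := minpoly.degree_dvd hint
  have h2 : minpoly ℚ u ∣ (minpoly ℚ (u ^ 2)).comp (X ^ 2) := by
    apply minpoly.dvd
    rw [aeval_comp]
    simp
  have hne : (minpoly ℚ (u ^ 2)).comp (X ^ 2) ≠ 0 := by
    have hm : ((minpoly ℚ (u ^ 2)).comp (X ^ 2)).Monic :=
      (minpoly.monic hint).comp (monic_X_pow 2) (by rw [natDegree_X_pow]; norm_num)
    exact hm.ne_zero
  have h3 := natDegree_le_of_dvd h2 hne
  rw [natDegree_comp, natDegree_X_pow] at h3
  unfold Gen at *
  rw [hu] at h3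
  obtain ⟨k, hk⟩ := h1
  have hpos : 0 < (minpoly ℚ (u ^ 2)).natDegree := minpoly.natDegree_pos hint
  have hk2 : k ≤ 2 := by
    rw [hk] at h3
    exact Nat.le_of_mul_le_mul_left h3 hpos
  have hodd : Odd k := by
    rw [hk] at hd
    exact (Nat.odd_mul.1 hd).2
  have : k = 1 := by
    obtain ⟨j, hj⟩ := hodd
    omega
  rw [hk, this, mul_one]

theorem Gen.bot {u : K} (hu : Gen u) (h1 : 1 < Module.finrank ℚ K) :
    u ∉ (⊥ : IntermediateField ℚ K) := bot_of_deg hu h1

/-- The norm of `c - u` is positive for large `c`. -/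
theorem norm_pos_large {u : K} (hu : Gen u) :
    ∃ c0 : ℚ, ∀ c : ℚ, c0 ≤ c → 0 < Algebra.norm ℚ ((c : K) - u) := by
  have hm := minpoly.monic (Algebra.IsIntegral.isIntegral (R := ℚ) u)
  have hdeg : 0 < (minpoly ℚ u).degree :=
    minpoly.degree_pos (Algebra.IsIntegral.isIntegral (R := ℚ) u)
  have h1 := Polynomial.tendsto_atTop_of_leadingCoeff_nonneg (𝕜 := ℝ)
    ((minpoly ℚ u).map (algebraMap ℚ ℝ)) (by rw [degree_map]; exact hdeg)
    (by rw [(hm.map _).leadingCoeff]; norm_num)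
  obtain ⟨M, hM⟩ := Filter.eventually_atTop.1 (h1.eventually (Filter.eventually_gt_atTop 0))
  obtain ⟨c0, hc0⟩ := exists_nat_ge M
  refine ⟨c0, fun c hc => ?_⟩
  rw [norm_sub_eq' hu]
  have h2 := hM (c : ℝ) (hc0.trans (by exact_mod_cast hc))
  rw [eval_map, ← eq_ratCast (algebraMap ℚ ℝ) c, eval₂_at_apply] at h2
  rw [eq_ratCast] at h2
  exact_mod_cast h2

/-- A rational number in which a prime occurs to an odd power is not a square. -/
theorem not_square {l : ℕ} (hl : l.Prime) {F : ℤ} (hF : ¬ (l : ℤ) ∣ F) {r : ℚ} (hr : r ≠ 0) :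
    ¬ IsSquare ((F : ℚ) * l * r ^ 2) := by
  intro hsq
  have h1 : IsSquare (((F * l : ℤ)) : ℚ) := by
    obtain ⟨k, hk⟩ := hsq
    refine ⟨k / r, ?_⟩
    push_cast
    field_simp
    linear_combination hk
  rw [Rat.isSquare_intCast_iff] at h1
  obtain ⟨k, hk⟩ := h1
  have hp : Prime (l : ℤ) := Nat.prime_iff_prime_int.1 hl
  have h2 : (l : ℤ) ∣ k := by
    have : (l : ℤ) ∣ k * k := ⟨F, by rw [← hk]; ring⟩
    rcases hp.dvd_or_dvd this with h | h <;> exact h
  obtain ⟨j, rfl⟩ := h2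
  apply hF
  refine ⟨j * j, ?_⟩
  have h3 : (l : ℤ) ≠ 0 := hp.ne_zero
  apply mul_right_cancel₀ h3
  rw [hk]; ring

/-- The norm of `l ± t` for `t` integral. -/
theorem norm_int {t : K} (ht : Gen t) (hint : IsIntegral ℤ t) (m : ℤ) :
    Algebra.norm ℚ ((m : K) - t) = ((minpoly ℤ t).eval m : ℤ) := by
  have h1 := norm_sub_eq' ht (m : ℚ)
  rw [minpoly.isIntegrallyClosed_eq_field_fractions' ℚ hint, eval_map, algebraMap_int_eq,
    eval₂_at_intCast] at h1
  have e : (((m : ℤ) : ℚ) : K) = (m : K) := by push_cast; rfl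
  rw [e] at h1
  rw [h1]
  simp

theorem norm_neg_odd (hd : Odd (Module.finrank ℚ K)) (z : K) :
    Algebra.norm ℚ (-z) = -Algebra.norm ℚ z := by
  have : -z = ((-1 : ℚ) : K) * z := by push_cast; ring
  rw [this, map_mul, norm_q, hd.neg_one_pow]; ring

end Pool.Agent.Lib_helper48.EVEN
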