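import Mathlib
import Pool.Agent.Lib_helper48.EVEN.Nodes

/-!
Number fields of odd degree: the two basic relations between generators whose norm is not a square.
-/

namespace Pool.Agent.Lib_helper48.EVEN

open Pool.Agent.Lib_helper11.CUB Pool.Agent.Lib_helper3.QUI Polynomial

variable {K : Type*} [Field K] [NumberField K]

theorem gen_ne_zero (h1 : 1 < Module.finrank ℚ K) {t : K} (ht : Gen t) : t ≠ 0 := by
  rintro rfl
  exact ht.bot h1 (zero_mem _)

/-- The three nodes of the second relation, for a suitable multiple of `t`. -/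
theorem star (hd : Odd (Module.finrank ℚ K)) (h1 : 1 < Module.finrank ℚ K) {t : K} (ht : Gen t) :
    ∃ ρ q : ℚ, 0 < ρ ∧ 0 < q ∧ Good ((1 + ρ * t) / 2) ∧ Good ((1 - ρ * t) / 2) ∧
      Good (((ρ * t) ^ 2 - 1) / (4 * q)) ∧
      Ev [(1 + ρ * t) / 2, (1 - ρ * t) / 2, ((ρ * t) ^ 2 - 1) / (4 * q)]
        (fun h e => e ((1 + ρ * t) / 2) * e ((1 - ρ * t) / 2) =
          H h q * e (((ρ * t) ^ 2 - 1) / (4 * q))) := by
  obtain ⟨m, hm, hmi⟩ := common_int [t]
  have hint : IsIntegral ℤ ((m : K) * t) := hmi t (by simp)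
  have hmq : (m : ℚ) ≠ 0 := by exact_mod_cast (by omega : m ≠ 0)
  have hgen : Gen ((m : K) * t) := by
    have := deg_mul ht hmq
    rwa [Rat.cast_natCast] at this
  obtain ⟨T, hT⟩ : ∃ T : K, T = (m : K) * t := ⟨_, rfl⟩
  rw [← hT] at hint hgen
  obtain ⟨f, hf⟩ : ∃ f : ℤ[X], f = minpoly ℤ T := ⟨_, rfl⟩
  have hN : ∀ c : ℤ, Algebra.norm ℚ ((c : K) - T) = (f.eval c : ℤ) := by
    intro c; rw [hf]; exact norm_int hgen hint c
  have hf0 : f.eval 0 ≠ 0 := by
    intro h0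
    have := hN 0
    rw [h0] at this
    simp only [Int.cast_zero, zero_sub] at this
    exact norm_ne (neg_ne_zero.2 (gen_ne_zero h1 hgen)) this
  obtain ⟨l, hlN, hl⟩ := Nat.exists_infinite_primes ((f.eval 0).natAbs + 3)
  have hlp : Prime (l : ℤ) := Nat.prime_iff_prime_int.1 hl
  have hl0 : ¬ (l : ℤ) ∣ f.eval 0 := by
    intro h
    have := Int.le_of_dvd (Int.natAbs_pos.2 hf0 |> fun h => by exact_mod_cast h)
      ((Int.dvd_natAbs).2 h)
    omega
  have hl2 : ¬ (l : ℤ) ∣ 2 := by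
    intro h
    have := Int.le_of_dvd (by norm_num) h
    omega
  have hfl : ¬ (l : ℤ) ∣ f.eval (l : ℤ) := by
    intro h
    apply hl0
    have h2 := sub_dvd_eval_sub (l : ℤ) 0 f
    rw [sub_zero] at h2
    exact (dvd_sub_right h).1 h2
  have hfml : ¬ (l : ℤ) ∣ f.eval (-(l : ℤ)) := by
    intro h
    apply hl0
    have h2 := sub_dvd_eval_sub (-(l : ℤ)) 0 f
    rw [sub_zero, neg_dvd] at h2
    exact (dvd_sub_right h).1 h2
  have hlq : (l : ℚ) ≠ 0 := by exact_mod_cast hl.ne_zero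
  have hlqp : (0 : ℚ) < l := by exact_mod_cast hl.pos
  have hlK : (l : K) ≠ 0 := by exact_mod_cast hl.ne_zero
  have hmqp : (0 : ℚ) < m := by exact_mod_cast (by omega : 0 < m)
  have hbot := ht.bot h1
  obtain ⟨k, hk⟩ := hd
  have hd' : Odd (Module.finrank ℚ K) := ⟨k, hk⟩
  -- norms
  have n1 : Algebra.norm ℚ ((l : K) - T) = (f.eval (l : ℤ) : ℤ) := by
    have := hN (l : ℤ)
    rwa [Int.cast_natCast] at this
  have n2 : Algebra.norm ℚ ((l : K) + T) = -(f.eval (-(l : ℤ)) : ℤ) := by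
    have := hN (-(l : ℤ))
    have e : ((-(l : ℤ) : ℤ) : K) - T = -((l : K) + T) := by push_cast; ring
    rw [e, norm_neg_odd hd'] at this
    linarith
  have eT : ((m / l : ℚ) : K) * t = T / l := by rw [hT]; push_cast; field_simp
  have ea : (1 + ((m / l : ℚ) : K) * t) / 2 = ((1 / (2 * l) : ℚ) : K) * (l + T) := by
    rw [eT]; push_cast; field_simp
  have eb : (1 - ((m / l : ℚ) : K) * t) / 2 = ((1 / (2 * l) : ℚ) : K) * (l - T) := by
    rw [eT]; push_cast; field_simp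
  have ec : ((((m / l : ℚ) : K) * t) ^ 2 - 1) / (4 * ((l : ℚ) : K)) =
      ((-1 / (4 * l ^ 3) : ℚ) : K) * ((l - T) * (l + T)) := by
    rw [eT]; push_cast; field_simp; ring
  have ga : Algebra.norm ℚ ((1 + ((m / l : ℚ) : K) * t) / 2) =
      ((-2 * f.eval (-(l : ℤ)) : ℤ) : ℚ) * l * (1 / (2 * l) ^ (k + 1)) ^ 2 := by
    rw [ea, map_mul, norm_q, n2, hk]
    push_cast
    have e2 : ((2 : ℚ) * l) ^ (2 * k + 1) ≠ 0 := pow_ne_zero _ (by positivity)
    have e3 : ((2 : ℚ) * l) ^ (k + 1) ≠ 0 := pow_ne_zero _ (by positivity)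
    rw [one_div, inv_pow]
    have e4 : (((2 : ℚ) * l) ^ (k + 1)) ^ 2 = (2 * l) ^ (2 * k + 1) * (2 * l) := by ring
    rw [div_pow, one_pow, e4]
    field_simp
  have gb : Algebra.norm ℚ ((1 - ((m / l : ℚ) : K) * t) / 2) =
      ((2 * f.eval (l : ℤ) : ℤ) : ℚ) * l * (1 / (2 * l) ^ (k + 1)) ^ 2 := by
    rw [eb, map_mul, norm_q, n1, hk]
    push_cast
    have e2 : ((2 : ℚ) * l) ^ (2 * k + 1) ≠ 0 := pow_ne_zero _ (by positivity)
    rw [one_div, inv_pow]
    have e4 : (((2 : ℚ) * l) ^ (k + 1)) ^ 2 = (2 * l) ^ (2 * k + 1) * (2 * l) := by ring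
    rw [div_pow, one_pow, e4]
    field_simp
  have gc : Algebra.norm ℚ (((((m / l : ℚ) : K) * t) ^ 2 - 1) / (4 * ((l : ℚ) : K))) =
      ((f.eval (l : ℤ) * f.eval (-(l : ℤ)) : ℤ) : ℚ) * l * (2 * l / (4 * l ^ 3) ^ (k + 1)) ^ 2 := by
    rw [ec, map_mul, map_mul, norm_q, n1, n2, hk]
    push_cast
    have e2 : ((4 : ℚ) * l ^ 3) ^ (2 * k + 1) ≠ 0 := pow_ne_zero _ (by positivity)
    have e4 : (((4 : ℚ) * l ^ 3) ^ (k + 1)) ^ 2 = (4 * l ^ 3) ^ (2 * k + 1) * (4 * l ^ 3) := by ring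
    have e5 : ((-1 : ℚ)) ^ (2 * k + 1) = -1 := by rw [pow_succ, pow_mul]; norm_num
    rw [div_pow, div_pow, e4, e5]
    field_simp
    ring
  have hne1 : (1 / (2 * (l : ℚ)) ^ (k + 1)) ≠ 0 := by positivity
  have hne2 : (2 * (l : ℚ) / (4 * l ^ 3) ^ (k + 1)) ≠ 0 := by positivity
  have hA : Gen ((1 + ((m / l : ℚ) : K) * t) / 2) := by
    have h2 := gen_affine ht (r := m / l / 2) (by positivity) (1 / 2)
    have e : ((m / l / 2 : ℚ) : K) * t + ((1 / 2 : ℚ) : K) = (1 + ((m / l : ℚ) : K) * t) / 2 := by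
      push_cast; ring
    rwa [e] at h2
  have hB : Gen ((1 - ((m / l : ℚ) : K) * t) / 2) := by
    have h2 := gen_affine ht (r := -(m / l / 2)) (neg_ne_zero.2 (by positivity)) (1 / 2)
    have e : ((-(m / l / 2) : ℚ) : K) * t + ((1 / 2 : ℚ) : K) = (1 - ((m / l : ℚ) : K) * t) / 2 := by
      push_cast; ring
    rwa [e] at h2
  have hC : Gen (((((m / l : ℚ) : K) * t) ^ 2 - 1) / (4 * ((l : ℚ) : K))) := by
    have h2 := gen_affine (gen_sq hd' ht) (r := (m / l) ^ 2 / (4 * l)) (by positivity) (-1 / (4 * l))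
    have e : (((m / l) ^ 2 / (4 * l) : ℚ) : K) * t ^ 2 + ((-1 / (4 * l) : ℚ) : K) =
        ((((m / l : ℚ) : K) * t) ^ 2 - 1) / (4 * ((l : ℚ) : K)) := by
      push_cast; field_simp; ring
    rwa [e] at h2
  refine ⟨m / l, l, by positivity, hlqp, ⟨hA, ?_⟩, ⟨hB, ?_⟩, ⟨hC, ?_⟩, ?_⟩
  · rw [ga]
    apply not_square hl _ hne1
    intro h
    rcases hlp.dvd_or_dvd h with h | h
    · exact hl2 ((dvd_neg).1 h)
    · exact hfml h
  · rw [gb]
    apply not_square hl _ hne1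
    intro h
    rcases hlp.dvd_or_dvd h with h | h
    · exact hl2 h
    · exact hfl h
  · rw [gc]
    apply not_square hl _ hne2
    intro h
    rcases hlp.dvd_or_dvd h with h | h
    · exact hfl h
    · exact hfml h
  · apply rel_star hd' _ hlqp (not_sq_rat (not_isSquare_prime hl))
    have := affine_not_mem hbot (r := m / l) (by positivity) 0
    simpa using this

/-- A rational number whose square is slightly larger than `A`. -/
theorem exists_sq_near {A ε : ℚ} (hA : 0 ≤ A) (hε : 0 < ε) :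
    ∃ w : ℚ, A < w ^ 2 ∧ w ^ 2 < A + ε := by
  have hA' : (0 : ℝ) ≤ (A : ℝ) := by exact_mod_cast hA
  have hε' : (0 : ℝ) < (ε : ℝ) := by exact_mod_cast hε
  obtain ⟨w, h1, h2⟩ := exists_rat_btwn (Real.sqrt_lt_sqrt hA' (show (A : ℝ) < A + ε by linarith))
  refine ⟨w, ?_, ?_⟩
  · have : (A : ℝ) < (w : ℝ) ^ 2 := by
      rwa [Real.sqrt_lt' (lt_of_le_of_lt (Real.sqrt_nonneg _) h1)] at h1
    exact_mod_cast this
  · have : (w : ℝ) ^ 2 < (A : ℝ) + ε := by
      rwa [Real.lt_sqrt (lt_of_le_of_lt (Real.sqrt_nonneg _) h1).le] at h2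
    exact_mod_cast this

/-- The signs of `z` and of `r z + s`. -/
theorem link (hd : Odd (Module.finrank ℚ K)) (h1 : 1 < Module.finrank ℚ K) {z : K} (hz : Gen z)
    {r : ℚ} (hr : 0 < r) (s : ℚ) :
    ∃ u : K, Good u ∧ Ev [z, u, (r : K) * z + s] (fun h e => e ((r : K) * z + s) = H h r * e z) := by
  obtain ⟨D2, hD2, hD2s, hrD2⟩ : ∃ D2 : ℚ, 0 < D2 ∧ ¬ IsSquare D2 ∧ ¬ IsSquare (r * D2) := by
    have h2s : ¬ IsSquare (2 : ℚ) := by
      have := not_sq_rat (not_isSquare_prime Nat.prime_two)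
      exact_mod_cast this
    have h3s : ¬ IsSquare (3 : ℚ) := by
      have := not_sq_rat (not_isSquare_prime Nat.prime_three)
      exact_mod_cast this
    by_cases h2 : IsSquare (r * 2)
    · refine ⟨3, by norm_num, h3s, ?_⟩
      rintro ⟨b, hb⟩
      obtain ⟨a, ha⟩ := h2
      have ha0 : a ≠ 0 := by rintro rfl; linarith
      have h6 : IsSquare (6 : ℚ) := ⟨a * b / r, by
        have : a * b / r * (a * b / r) = (a * a) * (b * b) / r ^ 2 := by field_simp
        rw [this, ← ha, ← hb]; field_simp; norm_num⟩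
      have h6' : ¬ IsSquare (6 : ℚ) := by
        intro h
        have h7 : IsSquare (((6 : ℤ)) : ℚ) := by exact_mod_cast h
        rw [Rat.isSquare_intCast_iff] at h7
        obtain ⟨c, hc⟩ := h7
        have hp : Prime (2 : ℤ) := Int.prime_two
        have h8 : (2 : ℤ) ∣ c := by
          have : (2 : ℤ) ∣ c * c := ⟨3, by rw [← hc]; norm_num⟩
          rcases hp.dvd_or_dvd this with h | h <;> exact h
        obtain ⟨j, rfl⟩ := h8
        have : 2 * (j * j) = 3 := by linarith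
        omega
      exact h6' h6
    · exact ⟨2, by norm_num, h2s, h2⟩
  obtain ⟨D1, hD1⟩ : ∃ D1 : ℚ, D1 = 1 / (r * D2) := ⟨_, rfl⟩
  have hD1p : 0 < D1 := by rw [hD1]; positivity
  have hD1s : ¬ IsSquare D1 := by
    rintro ⟨a, ha⟩
    apply hrD2
    refine ⟨r * D2 * a, ?_⟩
    have : r * D2 * a * (r * D2 * a) = (r * D2) ^ 2 * (a * a) := by ring
    rw [this, ← ha, hD1]; field_simp
  obtain ⟨c0, hc0⟩ := norm_pos_large hz
  obtain ⟨x, hx⟩ := exists_nat_ge (|c0| + D1 + |s| / r + 1)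
  have hs0 := abs_nonneg s
  have hc00 := abs_nonneg c0
  have hsr : 0 ≤ |s| / r := by positivity
  have hx1 : (1 : ℚ) ≤ x := by linarith
  have hx2 : (x : ℚ) ≤ x ^ 2 := by nlinarith
  have hA : 0 ≤ r * (x : ℚ) ^ 2 + s := by
    have h3 : |s| / r ≤ (x : ℚ) ^ 2 := by linarith
    rw [div_le_iff₀ hr] at h3
    have := neg_abs_le s
    linarith
  obtain ⟨w, hw1, hw2⟩ := exists_sq_near hA (show (0 : ℚ) < 1 / D2 by positivity)
  obtain ⟨M, hM⟩ : ∃ M : ℚ, M = D2 * (w ^ 2 - r * (x : ℚ) ^ 2 - s) := ⟨_, rfl⟩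
  have hM0 : 0 < M := by rw [hM]; apply mul_pos hD2; linarith
  have hM1 : M < 1 := by
    have h3 : D2 * (w ^ 2 - r * (x : ℚ) ^ 2 - s) < D2 * (1 / D2) :=
      mul_lt_mul_of_pos_left (by linarith) hD2
    rw [hM]
    calc D2 * (w ^ 2 - r * (x : ℚ) ^ 2 - s) < D2 * (1 / D2) := h3
      _ = 1 := by field_simp
  obtain ⟨c, hc⟩ : ∃ c : ℚ, c = (x : ℚ) ^ 2 - D1 * ((M - 1) / 2) ^ 2 := ⟨_, rfl⟩
  have hcc : c0 ≤ c := by
    have h3 : ((M - 1) / 2) ^ 2 ≤ 1 := by nlinarith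
    have h4 : D1 * ((M - 1) / 2) ^ 2 ≤ D1 * 1 := mul_le_mul_of_nonneg_left h3 hD1p.le
    have := le_abs_self c0
    rw [hc]; linarith
  obtain ⟨u, hu⟩ : ∃ u : K, u = (z - (c : K)) / (D1 : K) := ⟨_, rfl⟩
  have hbot := hz.bot h1
  have hD1K : (D1 : K) ≠ 0 := by exact_mod_cast hD1p.ne'
  have hD2K : (D2 : K) ≠ 0 := by exact_mod_cast hD2.ne'
  have hrK : (r : K) ≠ 0 := by exact_mod_cast hr.ne'
  have hgu : Gen u := by
    have h3 := gen_affine hz (r := 1 / D1) (by positivity) (-c / D1)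
    have e : ((1 / D1 : ℚ) : K) * z + ((-c / D1 : ℚ) : K) = u := by
      rw [hu]; push_cast; field_simp; ring
    rwa [e] at h3
  have hgood : Good u := by
    refine ⟨hgu, fun hsq => ?_⟩
    have e : u = ((-1 / D1 : ℚ) : K) * ((c : K) - z) := by
      rw [hu]; push_cast; field_simp; ring
    rw [e, map_mul, norm_q, div_pow, hd.neg_one_pow] at hsq
    have h3 := hc0 c hcc
    have h4 : (-1) / D1 ^ Module.finrank ℚ K * Algebra.norm ℚ ((c : K) - z) < 0 := by
      apply mul_neg_of_neg_of_pos _ h3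
      apply div_neg_of_neg_of_pos (by norm_num) (pow_pos hD1p _)
    exact absurd hsq.nonneg (not_le.2 h4)
  have r1 := rel_lin hd hbot hD1p hD1s (a := x) (b := (M - 1) / 2) (Or.inl (by positivity))
  rw [← hc, ← hu] at r1
  have hw0 : w ≠ 0 := by
    rintro rfl
    have : (0 : ℚ) ^ 2 = 0 := by norm_num
    rw [this] at hw1
    linarith
  have r2 := rel_lin hd (hgu.bot h1) hD2 hD2s (a := (M + 1) / 2) (b := w) (Or.inr hw0)
  have e2 : (u - (((M + 1) / 2) ^ 2 - D2 * w ^ 2 : ℚ)) / (D2 : K) = (r : K) * z + s := by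
    have h3 : (D1 : K) = 1 / (r * D2) := by rw [hD1]; push_cast; rfl
    have h4 : ((((M + 1) / 2) ^ 2 - D2 * w ^ 2 : ℚ) : K) = ((-(c / D1) - D2 * s : ℚ) : K) := by
      have : ((M + 1) / 2) ^ 2 - D2 * w ^ 2 = -(c / D1) - D2 * s := by
        have h5 : ((M + 1) / 2) ^ 2 = M + ((M - 1) / 2) ^ 2 := by ring
        rw [h5, hc, hD1]
        have h6 : M + ((M - 1) / 2) ^ 2 - D2 * w ^ 2 =
          (M - D2 * (w ^ 2 - r * (x : ℚ) ^ 2 - s)) + ((M - 1) / 2) ^ 2 - D2 * (r * x ^ 2 + s) := by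
          ring
        rw [h6, ← hM]
        field_simp
        ring
      rw [this]
    rw [h4, hu]
    push_cast
    rw [h3]
    field_simp
    ring
  rw [e2] at r2
  refine ⟨u, hgood, ((r1.and r2).sub ?_).imp ?_⟩
  · intro y hy
    simp only [List.cons_append, List.nil_append, List.mem_cons, List.not_mem_nil, or_false] at hy ⊢
    tauto
  · intro h hh y hy
    obtain ⟨k1, k2⟩ := hy
    have h3 : H h r * H h D1 * H h D2 = 1 := by
      rw [← H_mul hh hr.ne' hD1p.ne', ← H_mul hh (mul_ne_zero hr.ne' hD1p.ne') hD2.ne']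
      have : r * D1 * D2 = 1 := by rw [hD1]; field_simp
      rw [this]
      have := H_nat hh 1
      rw [Nat.cast_one] at this
      rw [this, hh.one]
    have h4 := H_sq hh hD2.ne'
    have h5 := H_sq hh hr.ne'
    have h6 := H_sq hh hD1p.ne'
    rw [k1, k2]
    have h7 : H h r * (H h D1 * (H h D2 * sg h y ((r : K) * z + s))) =
        (H h r * H h D1 * H h D2) * sg h y ((r : K) * z + s) := by ring
    rw [h7, h3, one_mul]

end Pool.Agent.Lib_helper48.EVEN
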