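import Mathlib
import Pool.Agent.Lib_helper48.EVEN.Star

/-!
Number fields of odd degree: cycles of conics, for the signs of `N(n^2 - z)`.
-/

namespace Pool.Agent.Lib_helper48.EVEN

open Pool.Agent.Lib_helper11.CUB Pool.Agent.Lib_helper3.QUI Polynomial

variable {K : Type*} [Field K] [NumberField K]

/-- The two nodes attached to `z + α`. -/
def up (z : K) (ρ α : ℚ) : K := (1 + (ρ : K) * (z + α)) / 2

/-- The two nodes attached to `z + α`. -/
def dn (z : K) (ρ α : ℚ) : K := (1 - (ρ : K) * (z + α)) / 2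

/-- The two nodes are good. -/
def GoodP (z : K) (ρ α : ℚ) : Prop := 0 < ρ ∧ Good (up z ρ α) ∧ Good (dn z ρ α)

theorem gen_shift {z : K} (hz : Gen z) (α : ℚ) : Gen (z + (α : K)) := by
  have := gen_affine hz (r := 1) one_ne_zero α
  simpa using this

/-- Two generators along a conic with axes parallel to the axes of coordinates. -/
theorem conic (hd : Odd (Module.finrank ℚ K)) (h1 : 1 < Module.finrank ℚ K) {z z' : K} (hz : Gen z)
    (hz' : Gen z') {q : ℚ} (hq : 0 < q) {α β c : ℚ}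
    (rel : (z + (α : K)) ^ 2 - (q : K) * (z' + (β : K)) ^ 2 = (c : K)) :
    ∃ ρ ρ' : ℚ, GoodP z ρ α ∧ GoodP z' ρ' β ∧ ∃ L : List K, L.length = 7 ∧ (∀ y ∈ L, Good y) ∧
      up z ρ α ∈ L ∧ dn z ρ α ∈ L ∧ up z' ρ' β ∈ L ∧ dn z' ρ' β ∈ L ∧
      Ev L (fun h e => e (up z ρ α) * e (dn z ρ α) = H h q * (e (up z' ρ' β) * e (dn z' ρ' β))) := by
  obtain ⟨ρ, l, hρ, hl, g1, g2, g3, s1⟩ := star hd h1 (gen_shift hz α)
  obtain ⟨ρ', l', hρ', hl', g1', g2', g3', s2⟩ := star hd h1 (gen_shift hz' β)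
  obtain ⟨T, hT⟩ : ∃ T : K, T = z + (α : K) := ⟨_, rfl⟩
  obtain ⟨S', hS⟩ : ∃ S' : K, S' = z' + (β : K) := ⟨_, rfl⟩
  obtain ⟨w, hw⟩ : ∃ w : K, w = ((ρ * (z + (α : K))) ^ 2 - 1) / (4 * l) := ⟨_, rfl⟩
  obtain ⟨w', hw'⟩ : ∃ w' : K, w' = ((ρ' * (z' + (β : K))) ^ 2 - 1) / (4 * l') := ⟨_, rfl⟩
  obtain ⟨r, hr⟩ : ∃ r : ℚ, r = q * (ρ / ρ') ^ 2 * (l' / l) := ⟨_, rfl⟩
  have hr0 : 0 < r := by rw [hr]; positivity
  obtain ⟨u, hu, s3⟩ := link hd h1 g3'.1 hr0
    ((ρ ^ 2 * c - 1) / (4 * l) + q * (ρ / ρ') ^ 2 / (4 * l))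
  have hlK : (l : K) ≠ 0 := by exact_mod_cast hl.ne'
  have hlK' : (l' : K) ≠ 0 := by exact_mod_cast hl'.ne'
  have hρK' : (ρ' : K) ≠ 0 := by exact_mod_cast hρ'.ne'
  have e : (r : K) * (((ρ' * (z' + (β : K))) ^ 2 - 1) / (4 * l')) +
      (((ρ ^ 2 * c - 1) / (4 * l) + q * (ρ / ρ') ^ 2 / (4 * l) : ℚ) : K) =
        ((ρ * (z + (α : K))) ^ 2 - 1) / (4 * l) := by
    rw [hr, ← hT, ← hS]
    rw [← hT, ← hS] at rel
    push_cast
    rw [← rel]
    field_simp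
    ring
  rw [e] at s3
  rw [← hw, ← hw'] at s3
  rw [← hw] at s1 g3
  rw [← hw'] at s2 g3'
  refine ⟨ρ, ρ', ⟨hρ, g1, g2⟩, ⟨hρ', g1', g2'⟩,
    [up z ρ α, dn z ρ α, w, up z' ρ' β, dn z' ρ' β, w', u], rfl, ?_, by simp, by simp, by simp, by simp, ?_⟩
  · intro y hy
    simp only [List.mem_cons, List.not_mem_nil, or_false] at hy
    rcases hy with rfl | rfl | rfl | rfl | rfl | rfl | rfl
    · exact g1
    · exact g2
    · exact g3
    · exact g1'
    · exact g2'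
    · exact g3'
    · exact hu
  · refine (((s1.and s2).and s3).sub ?_).imp ?_
    · intro y hy
      simp only [List.cons_append, List.nil_append, List.mem_cons, List.not_mem_nil, or_false] at hy
      simp only [up, dn, List.mem_cons, List.not_mem_nil, or_false]
      tauto
    · rintro h hh y ⟨⟨k1, k2⟩, k3⟩
      have h3 : H h r = H h q * (H h l' * H h l) := by
        have e3 : r = q * (l' * l) * (ρ / ρ' / l) ^ 2 := by
          rw [hr]; field_simp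
        rw [e3, H_mul hh (by positivity) (by positivity), H_pow2 hh (by positivity), mul_one,
          H_mul hh hq.ne' (by positivity), H_mul hh hl'.ne' hl.ne']
      simp only [up, dn]
      rw [k1, k2, k3, h3]
      have h4 := H_sq hh hl.ne'
      linear_combination (H h q * H h l' * sg h y w') * h4

/-- Different parameters for the same generator. -/
theorem relink (hd : Odd (Module.finrank ℚ K)) (h1 : 1 < Module.finrank ℚ K) {z : K}
    {ρ α ρ' β : ℚ} (g : GoodP z ρ α) (g' : GoodP z ρ' β) :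
    ∃ L : List K, L.length = 2 ∧ (∀ y ∈ L, Good y) ∧
      Ev ([up z ρ α, dn z ρ α] ++ L ++ [up z ρ' β, dn z ρ' β])
        (fun _ e => e (up z ρ α) * e (dn z ρ α) = e (up z ρ' β) * e (dn z ρ' β)) := by
  obtain ⟨hρ, g1, g2⟩ := g
  obtain ⟨hρ', g1', g2'⟩ := g'
  have hr : 0 < ρ' / ρ := by positivity
  obtain ⟨u, hu, s1⟩ := link hd h1 g1.1 hr ((1 + ρ' * β - ρ' / ρ - ρ' * α) / 2)
  obtain ⟨v, hv, s2⟩ := link hd h1 g2.1 hr ((1 - ρ' * β - ρ' / ρ + ρ' * α) / 2)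
  have hρK : (ρ : K) ≠ 0 := by exact_mod_cast hρ.ne'
  have e1 : ((ρ' / ρ : ℚ) : K) * up z ρ α + (((1 + ρ' * β - ρ' / ρ - ρ' * α) / 2 : ℚ) : K) =
      up z ρ' β := by
    simp only [up]; push_cast; field_simp; ring
  have e2 : ((ρ' / ρ : ℚ) : K) * dn z ρ α + (((1 - ρ' * β - ρ' / ρ + ρ' * α) / 2 : ℚ) : K) =
      dn z ρ' β := by
    simp only [dn]; push_cast; field_simp; ring
  rw [e1] at s1
  rw [e2] at s2
  refine ⟨[u, v], rfl, ?_, ((s1.and s2).sub ?_).imp ?_⟩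
  · intro y hy
    simp only [List.mem_cons, List.not_mem_nil, or_false] at hy
    rcases hy with rfl | rfl
    · exact hu
    · exact hv
  · intro y hy
    simp only [List.cons_append, List.nil_append, List.mem_cons, List.not_mem_nil, or_false] at hy ⊢
    tauto
  · rintro h hh y ⟨k1, k2⟩
    rw [k1, k2]
    have h4 := H_sq hh hr.ne'
    linear_combination (-(sg h y (up z ρ α) * sg h y (dn z ρ α))) * h4

/-- A chain of conics from `z` to `z'`. -/
def Chain (z z' : K) (Q : (ℕ → ℤ) → ℤ) (N : ℕ) : Prop :=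
  ∃ ρ α : ℚ, GoodP z ρ α ∧ ∀ ρ' β : ℚ, GoodP z' ρ' β → ∃ L : List K, L.length ≤ N ∧
    (∀ y ∈ L, Good y) ∧ up z ρ α ∈ L ∧ dn z ρ α ∈ L ∧
    Ev (L ++ [up z' ρ' β, dn z' ρ' β]) (fun h e =>
      e (up z ρ α) * e (dn z ρ α) = Q h * (e (up z' ρ' β) * e (dn z' ρ' β)))

theorem Chain.of_conic (hd : Odd (Module.finrank ℚ K)) (h1 : 1 < Module.finrank ℚ K) {z z' : K}
    (hz : Gen z) (hz' : Gen z') {q : ℚ} (hq : 0 < q) {α β c : ℚ}
    (rel : (z + (α : K)) ^ 2 - (q : K) * (z' + (β : K)) ^ 2 = (c : K)) :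
    Chain z z' (fun h => H h q) 9 := by
  obtain ⟨ρ, ρ₁, g, g₁, L, hL, hG, m1, m2, m3, m4, s1⟩ := conic hd h1 hz hz' hq rel
  refine ⟨ρ, α, g, fun ρ' β' g' => ?_⟩
  obtain ⟨L', hL', hG', s2⟩ := relink hd h1 g₁ g'
  refine ⟨L ++ L', by rw [List.length_append, hL, hL'], ?_, List.mem_append_left _ m1,
    List.mem_append_left _ m2, ((s1.and s2).sub ?_).imp ?_⟩
  · intro y hy
    rcases List.mem_append.1 hy with h | h
    · exact hG y h
    · exact hG' y h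
  · intro y hy
    simp only [List.mem_append, List.mem_cons, List.not_mem_nil, or_false] at hy ⊢
    rcases hy with hy | (((rfl | rfl) | hy) | hy)
    · exact Or.inl (Or.inl hy)
    · exact Or.inl (Or.inl m3)
    · exact Or.inl (Or.inl m4)
    · exact Or.inl (Or.inr hy)
    · exact Or.inr hy
  · rintro h hh y ⟨k1, k2⟩
    rw [k1, k2]

theorem Chain.trans {z z' z'' : K} {Q Q' : (ℕ → ℤ) → ℤ} {N N' : ℕ} (c1 : Chain z z' Q N)
    (c2 : Chain z' z'' Q' N') : Chain z z'' (fun h => Q h * Q' h) (N + N') := by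
  obtain ⟨ρ, α, g, c1⟩ := c1
  obtain ⟨ρ', β, g', c2⟩ := c2
  refine ⟨ρ, α, g, fun ρ₂ γ g₂ => ?_⟩
  obtain ⟨L, hL, hG, m1, m2, s1⟩ := c1 ρ' β g'
  obtain ⟨L', hL', hG', m1', m2', s2⟩ := c2 ρ₂ γ g₂
  refine ⟨L ++ L', by rw [List.length_append]; exact add_le_add hL hL', ?_,
    List.mem_append_left _ m1, List.mem_append_left _ m2, ((s1.and s2).sub ?_).imp ?_⟩
  · intro y hy
    rcases List.mem_append.1 hy with h | h
    · exact hG y h
    · exact hG' y h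
  · intro y hy
    simp only [List.mem_append, List.mem_cons, List.not_mem_nil, or_false] at hy ⊢
    rcases hy with ((hy | (rfl | rfl)) | (hy | hy))
    · exact Or.inl (Or.inl hy)
    · exact Or.inl (Or.inr m1')
    · exact Or.inl (Or.inr m2')
    · exact Or.inl (Or.inr hy)
    · exact Or.inr hy
  · rintro h hh y ⟨k1, k2⟩
    rw [k1, k2, mul_assoc]

theorem Chain.close (h1 : 1 < Module.finrank ℚ K) {z : K} {Q : (ℕ → ℤ) → ℤ} {N : ℕ}
    (c1 : Chain z z Q N) : ∃ L : List K, L.length ≤ N ∧ (∀ y ∈ L, Good y) ∧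
      Ev L (fun h _ => Q h = 1) := by
  obtain ⟨ρ, α, g, c1⟩ := c1
  obtain ⟨L, hL, hG, m1, m2, s1⟩ := c1 ρ α g
  refine ⟨L, hL, hG, (s1.sub ?_).imp ?_⟩
  · intro y hy
    simp only [List.mem_append, List.mem_cons, List.not_mem_nil, or_false] at hy
    rcases hy with hy | (rfl | rfl)
    · exact hy
    · exact m1
    · exact m2
  · rintro h hh y k1
    have v1 := sg_vals hh (g.2.1.1.bot h1) y
    have v2 := sg_vals hh (g.2.2.1.bot h1) y
    rcases v1 with v1 | v1 <;> rcases v2 with v2 | v2 <;> rw [v1, v2] at k1 <;> linarith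

end Pool.Agent.Lib_helper48.EVEN
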