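import Mathlib
import Pool.Agent.Lib_helper48.EVEN.Cycle

/-!
From the signs of `N(n^2 - z)` to values of irreducible polynomials `f(X^2)`.
-/

namespace Pool.Agent.Lib_helper48.EVEN

open Pool.Agent.Lib_helper11.CUB Pool.Agent.Lib_helper3.QUI Polynomial

/-- If `f` is irreducible and the norm of a root is not a square, then `f(X^2)` is irreducible. -/
theorem irreducible_comp_sq {F : Type*} [Field F] {f : F[X]} (hm : f.Monic) (hf : Irreducible f)
    (hn : ¬ IsSquare ((-1) ^ f.natDegree * f.coeff 0)) : Irreducible (f.comp (X ^ 2)) := by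
  refine irreducible_comp hm (monic_X_pow 2) hf fun E _ _ x hx => ?_
  rw [Polynomial.map_pow, map_X]
  apply X_pow_sub_C_irreducible_of_prime Nat.prime_two
  intro b hb
  have hint : IsIntegral F x := by
    by_contra h
    rw [minpoly.eq_zero h] at hx
    exact hf.ne_zero hx.symm
  apply hn
  have h1 : Algebra.norm F (IntermediateField.AdjoinSimple.gen F x) =
      (-1) ^ f.natDegree * f.coeff 0 := by
    rw [← IntermediateField.adjoin.powerBasis_gen hint,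
      Algebra.PowerBasis.norm_gen_eq_coeff_zero_minpoly,
      IntermediateField.adjoin.powerBasis_gen, IntermediateField.adjoin.powerBasis_dim,
      IntermediateField.minpoly_gen, hx]
  rw [← h1, ← hb, map_pow]
  exact ⟨_, sq _⟩

variable {K : Type*} [Field K] [NumberField K]

/-- The polynomials attached to a good node. -/
theorem good_poly (hd : Odd (Module.finrank ℚ K)) {z : K} (hz : Good z) {v : ℕ} (hv : 1 ≤ v)
    (hint : IsIntegral ℤ ((v : K) ^ 2 * z)) :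
    (minpoly ℤ ((v : K) ^ 2 * z)).Monic ∧
      (minpoly ℤ ((v : K) ^ 2 * z)).natDegree = Module.finrank ℚ K ∧
      Irreducible ((minpoly ℤ ((v : K) ^ 2 * z)).comp (X ^ 2)) := by
  have hvq : ((v : ℚ) ^ 2) ≠ 0 := pow_ne_zero _ (by exact_mod_cast (by omega : v ≠ 0))
  have hgen : Gen ((v : K) ^ 2 * z) := by
    have := deg_mul hz.1 hvq
    push_cast at this
    exact this
  have hm := minpoly.monic hint
  have hmap := minpoly.isIntegrallyClosed_eq_field_fractions' ℚ hint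
  have hdeg : (minpoly ℤ ((v : K) ^ 2 * z)).natDegree = Module.finrank ℚ K := by
    have h2 := hgen
    unfold Gen at h2
    rwa [hmap, hm.natDegree_map] at h2
  refine ⟨hm, hdeg, ?_⟩
  have hcm : ((minpoly ℤ ((v : K) ^ 2 * z)).comp (X ^ 2)).Monic :=
    hm.comp (monic_X_pow 2) (by rw [natDegree_X_pow]; norm_num)
  rw [hcm.irreducible_iff_irreducible_map_fraction_map (K := ℚ), Polynomial.map_comp,
    Polynomial.map_pow, map_X, ← hmap]
  apply irreducible_comp_sq (minpoly.monic (Algebra.IsIntegral.isIntegral _))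
    (minpoly.irreducible (Algebra.IsIntegral.isIntegral _))
  have h0 := norm_sub_eq' hgen 0
  rw [Rat.cast_zero, zero_sub, norm_neg_odd hd, ← coeff_zero_eq_eval_zero] at h0
  have hdd : (minpoly ℚ ((v : K) ^ 2 * z)).natDegree = Module.finrank ℚ K := hgen
  rw [hdd, hd.neg_one_pow, ← h0, neg_one_mul, neg_neg]
  intro hsq
  apply hz.2
  have e : ((v : K) ^ 2 * z) = (((v : ℚ) ^ 2 : ℚ) : K) * z := by push_cast; rfl
  rw [e, map_mul, norm_q] at hsq
  obtain ⟨r, hr⟩ := hsq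
  have hvd : ((v : ℚ) ^ Module.finrank ℚ K) ≠ 0 := pow_ne_zero _ (by exact_mod_cast (by omega : v ≠ 0))
  refine ⟨r / (v : ℚ) ^ Module.finrank ℚ K, ?_⟩
  have e2 : ((v : ℚ) ^ 2) ^ Module.finrank ℚ K = ((v : ℚ) ^ Module.finrank ℚ K) ^ 2 := by
    rw [← pow_mul, ← pow_mul, mul_comm]
  rw [e2] at hr
  field_simp
  linear_combination hr

/-- Values of the polynomials. -/
theorem value {h : ℕ → ℤ} (hh : CM h) {z : K} (hz : Gen z) (h1 : 1 < Module.finrank ℚ K) {v : ℕ}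
    (hv : 1 ≤ v) (hint : IsIntegral ℤ ((v : K) ^ 2 * z)) {n : ℚ} {k : ℤ} (hk : (k : ℚ) = v * n) :
    h (((minpoly ℤ ((v : K) ^ 2 * z)).comp (X ^ 2)).eval k).natAbs = S h z n := by
  have hvq : (v : ℚ) ≠ 0 := by exact_mod_cast (by omega : v ≠ 0)
  have hgen : Gen ((v : K) ^ 2 * z) := by
    have := deg_mul hz (pow_ne_zero 2 hvq)
    push_cast at this
    exact this
  have e1 := norm_int hgen hint (k ^ 2)
  rw [eval_comp, eval_pow, eval_X]
  have e2 : (((k ^ 2 : ℤ)) : K) - (v : K) ^ 2 * z = (((v : ℚ) ^ 2 : ℚ) : K) * ((n : K) ^ 2 - z) := by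
    have : (k : K) = (v : K) * (n : K) := by exact_mod_cast hk
    push_cast
    rw [this]; ring
  rw [e2, map_mul, norm_q] at e1
  have e3 := congrArg (H h) e1
  rw [H_int hh, H_mul hh (pow_ne_zero _ (pow_ne_zero _ hvq)) (norm_ne (sq_sub_ne (hz.bot h1) n)),
    ← pow_mul, mul_comm 2, pow_mul, H_pow2 hh (pow_ne_zero _ hvq), one_mul] at e3
  rw [← e3]
  rfl

/-- Windows. -/
theorem windows_even (h1 : 1 < Module.finrank ℚ K) {L : List K}
    (hG : ∀ y ∈ L, Good y) {Q : (ℕ → ℤ) → ℤ} (hE : Ev L (fun h _ => Q h = 1)) :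
    ∃ v : ℕ, 1 ≤ v ∧ (∀ z ∈ L, IsIntegral ℤ ((v : K) ^ 2 * z)) ∧ ∃ C : ℕ, ∀ h : ℕ → ℤ, CM h →
      Q h ≠ 1 → ∀ x : ℕ, 1 ≤ x → ∃ z ∈ L, ∀ s : ℤ, (s = 1 ∨ s = -1) → ∃ n : ℕ, x ≤ n ∧
        n ≤ C * x ^ 2 ∧ h (((minpoly ℤ ((v : K) ^ 2 * z)).comp (X ^ 2)).eval (n : ℤ)).natAbs = s := by
  obtain ⟨D, hD, C, hC, H⟩ := hE
  obtain ⟨m, hm, hmi⟩ := common_int L
  obtain ⟨v, hv⟩ : ∃ v : ℕ, v = D * m := ⟨_, rfl⟩
  have hv1 : 1 ≤ v := by rw [hv]; exact Nat.mul_pos hD hm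
  have hvq : (0 : ℚ) < v := by exact_mod_cast hv1
  have hint : ∀ z ∈ L, IsIntegral ℤ ((v : K) ^ 2 * z) := by
    intro z hz
    have natInt : ∀ k : ℕ, IsIntegral ℤ (k : K) := fun k => by
      have := isIntegral_algebraMap (R := ℤ) (A := K) (x := (k : ℤ))
      simpa using this
    have e : (v : K) ^ 2 * z = ((D * v : ℕ) : K) * ((m : K) * z) := by
      rw [hv]; push_cast; ring
    rw [e]
    exact (natInt _).mul (hmi z hz)
  obtain ⟨C', hC'⟩ := exists_nat_ge ((v : ℚ) * C)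
  refine ⟨v, hv1, hint, C', fun h hh hQ x hx => ?_⟩
  have hxq : (1 : ℚ) ≤ x := by exact_mod_cast hx
  have hcon : ¬ ∀ z ∈ L, Cst h D (x : ℚ) (C * (x : ℚ) ^ 2) z := fun hall => hQ (H h hh x hxq hall)
  push Not at hcon
  obtain ⟨z, hz, hcz⟩ := hcon
  unfold Cst at hcz
  push Not at hcz
  obtain ⟨n, hn, hn1, hn2, hn3⟩ := hcz
  refine ⟨z, hz, ?_⟩
  have hbot := (hG z hz).1.bot h1
  have hceil : ((⌈(x : ℚ)⌉ : ℤ) : ℚ) = x := by rw [Int.ceil_natCast]; simp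
  -- the two points
  have pt : ∀ n : ℚ, (D : ℚ) * n ∈ ZZ → (x : ℚ) ≤ n → n ≤ C * (x : ℚ) ^ 2 → ∃ k : ℕ, x ≤ k ∧
      k ≤ C' * x ^ 2 ∧
      h (((minpoly ℤ ((v : K) ^ 2 * z)).comp (X ^ 2)).eval (k : ℤ)).natAbs = S h z n := by
    intro n hn hn1 hn2
    have hvn : (v : ℚ) * n ∈ ZZ := by
      rw [hv]; exact mul_mem_ZZ_of_dvd (dvd_mul_right _ _) hn
    obtain ⟨k, hk⟩ := mem_ZZ.1 hvn
    have hn0 : (0 : ℚ) ≤ n := by linarith
    have hk0 : 0 ≤ k := by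
      have : (0 : ℚ) ≤ (k : ℚ) := by rw [hk]; positivity
      exact_mod_cast this
    obtain ⟨j, hj⟩ := Int.eq_ofNat_of_zero_le hk0
    refine ⟨j, ?_, ?_, ?_⟩
    · have h2 : (x : ℚ) ≤ (j : ℚ) := by
        have h3 : ((j : ℤ) : ℚ) = v * n := by rw [← hj]; exact hk
        rw [Int.cast_natCast] at h3
        rw [h3]
        have : (1 : ℚ) ≤ v := by exact_mod_cast hv1
        nlinarith
      exact_mod_cast h2
    · have h2 : (j : ℚ) ≤ ((C' * x ^ 2 : ℕ) : ℚ) := by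
        have h3 : ((j : ℤ) : ℚ) = v * n := by rw [← hj]; exact hk
        rw [Int.cast_natCast] at h3
        rw [h3]
        push_cast
        calc (v : ℚ) * n ≤ v * (C * (x : ℚ) ^ 2) := mul_le_mul_of_nonneg_left hn2 hvq.le
          _ = (v * C) * (x : ℚ) ^ 2 := by ring
          _ ≤ C' * (x : ℚ) ^ 2 := mul_le_mul_of_nonneg_right hC' (sq_nonneg _)
      exact_mod_cast h2
    · rw [← hj]
      exact value hh (hG z hz).1 h1 hv1 (hint z hz) hk
  have hx2 : (x : ℚ) ≤ C * (x : ℚ) ^ 2 := by nlinarith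
  obtain ⟨k1, a1, a2, a3⟩ := pt n hn hn1 hn2
  obtain ⟨k2, b1, b2, b3⟩ := pt x (by
    rw [mem_ZZ]; exact ⟨D * x, by push_cast; ring⟩) le_rfl hx2
  have hsg : sg h (x : ℚ) z = S h z x := by unfold sg; rw [hceil]
  rw [hsg] at hn3
  have v1 := S_vals hh hbot n
  have v2 := S_vals hh hbot (x : ℚ)
  intro s hs
  rcases v1 with v1 | v1 <;> rcases v2 with v2 | v2 <;> rw [v1, v2] at hn3
  · exact absurd rfl hn3
  · rcases hs with rfl | rfl
    · exact ⟨k1, a1, a2, a3.trans v1⟩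
    · exact ⟨k2, b1, b2, b3.trans v2⟩
  · rcases hs with rfl | rfl
    · exact ⟨k2, b1, b2, b3.trans v2⟩
    · exact ⟨k1, a1, a2, a3.trans v1⟩
  · exact absurd rfl hn3

/-- From a closed chain of conics to polynomials. -/
theorem chain_poly (hd : Odd (Module.finrank ℚ K)) (h1 : 1 < Module.finrank ℚ K) {z : K}
    {Q : (ℕ → ℤ) → ℤ} {N : ℕ} (c1 : Chain z z Q N) :
    ∃ F : List ℤ[X], F.length ≤ N ∧ (∀ f ∈ F, f.Monic ∧ f.natDegree = Module.finrank ℚ K ∧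
      Irreducible (f.comp (X ^ 2)) ∧ ∃ y : K, aeval y f = 0) ∧ ∃ C : ℕ, ∀ h : ℕ → ℤ, CM h →
      Q h ≠ 1 → ∀ x : ℕ, 1 ≤ x → ∃ f ∈ F, ∀ s : ℤ, (s = 1 ∨ s = -1) → ∃ n : ℕ, x ≤ n ∧
        n ≤ C * x ^ 2 ∧ h ((f.comp (X ^ 2)).eval (n : ℤ)).natAbs = s := by
  obtain ⟨L, hL, hG, hE⟩ := c1.close h1
  obtain ⟨v, hv, hint, C, H⟩ := windows_even h1 hG hE
  refine ⟨L.map (fun y => minpoly ℤ ((v : K) ^ 2 * y)), by rw [List.length_map]; exact hL, ?_, C,
    fun h hh hQ x hx => ?_⟩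
  · intro f hf
    obtain ⟨y, hy, rfl⟩ := List.mem_map.1 hf
    obtain ⟨a, b, c⟩ := good_poly hd (hG y hy) hv (hint y hy)
    exact ⟨a, b, c, _, minpoly.aeval _ _⟩
  · obtain ⟨y, hy, H'⟩ := H h hh hQ x hx
    exact ⟨_, List.mem_map.2 ⟨y, hy, rfl⟩, H'⟩

end Pool.Agent.Lib_helper48.EVEN
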