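import Mathlib
import Pool.Agent.Lib_helper48.EVEN.Poly
import Pool.Agent.Lib_helper91.QUI.Tower

/-!
Irreducible polynomials `f(X^2)` of degree `6` and of degree `2 (2 ^ k - 1)`.
-/

namespace Pool.Agent.Lib_helper48.EVEN

open Pool.Agent.Lib_helper11.CUB Pool.Agent.Lib_helper3.QUI Polynomial

section field

variable {K : Type*} [Field K] [NumberField K]

/-- A list as a family. -/
theorem list_family {α : Type*} {L : List α} {N : ℕ} (hL : L.length ≤ N) (hne : L ≠ []) :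
    ∃ z : Fin N → α, (∀ i, z i ∈ L) ∧ ∀ y ∈ L, ∃ i, z i = y := by
  obtain ⟨a, ha⟩ := List.exists_mem_of_ne_nil L hne
  refine ⟨fun i => if h : (i : ℕ) < L.length then L[(i : ℕ)] else a, fun i => ?_, fun y hy => ?_⟩
  · dsimp only
    split_ifs with h
    · exact List.getElem_mem h
    · exact ha
  · obtain ⟨i, hi, rfl⟩ := List.getElem_of_mem hy
    exact ⟨⟨i, hi.trans_le hL⟩, by simp [hi]⟩

theorem chain_family (hd : Odd (Module.finrank ℚ K)) (h1 : 1 < Module.finrank ℚ K) {z : K}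
    {Q : (ℕ → ℤ) → ℤ} {N : ℕ} (c1 : Chain z z Q N) :
    ∃ y : Fin N → K, (∀ i, IsIntegral ℤ (y i) ∧ (minpoly ℤ (y i)).natDegree = Module.finrank ℚ K ∧
      Irreducible ((minpoly ℤ (y i)).comp (X ^ 2))) ∧ ∃ C : ℕ, ∀ h : ℕ → ℤ, CM h →
      Q h ≠ 1 → ∀ x : ℕ, 1 ≤ x → ∃ i, ∀ s : ℤ, (s = 1 ∨ s = -1) → ∃ n : ℕ, x ≤ n ∧
        n ≤ C * x ^ 2 ∧ h (((minpoly ℤ (y i)).comp (X ^ 2)).eval (n : ℤ)).natAbs = s := by
  obtain ⟨ρ, α, g, c1⟩ := c1
  obtain ⟨L, hL, hG, m1, m2, s1⟩ := c1 ρ α g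
  have hE : Ev L (fun h _ => Q h = 1) := by
    refine (s1.sub ?_).imp ?_
    · intro y hy
      simp only [List.mem_append, List.mem_cons, List.not_mem_nil, or_false] at hy
      rcases hy with hy | (rfl | rfl)
      · exact hy
      · exact m1
      · exact m2
    · rintro h hh y k1
      have v1 := sg_vals hh (g.2.1.1.bot h1) y
      have v2 := sg_vals hh (g.2.2.1.bot h1) y
      rcases v1 with v1 | v1 <;> rcases v2 with v2 | v2 <;> rw [v1, v2] at k1 <;> linarith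
  obtain ⟨v, hv, hint, C, H⟩ := windows_even h1 hG hE
  obtain ⟨y, hy1, hy2⟩ := list_family hL (List.ne_nil_of_mem m1)
  refine ⟨fun i => (v : K) ^ 2 * y i, fun i => ?_, C, fun h hh hQ x hx => ?_⟩
  · obtain ⟨-, b, c⟩ := good_poly hd (hG _ (hy1 i)) hv (hint _ (hy1 i))
    exact ⟨hint _ (hy1 i), b, c⟩
  · obtain ⟨w, hw, H'⟩ := H h hh hQ x hx
    obtain ⟨i, rfl⟩ := hy2 w hw
    exact ⟨i, H'⟩

/-- A generator of a cubic field. -/
theorem cubic_gen (h3 : Module.finrank ℚ K = 3) : ∃ t : K, Gen t ∧ ∃ a b c : ℚ,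
    t ^ 3 = (a : K) * t ^ 2 + b * t + c := by
  obtain ⟨t, ht⟩ := Field.exists_primitive_element ℚ K
  have hint : IsIntegral ℚ t := Algebra.IsIntegral.isIntegral t
  have hg : Gen t := by
    unfold Gen
    rw [← IntermediateField.adjoin.finrank hint, ht, IntermediateField.finrank_top']
  refine ⟨t, hg, -(minpoly ℚ t).coeff 2, -(minpoly ℚ t).coeff 1, -(minpoly ℚ t).coeff 0, ?_⟩
  have hn : (minpoly ℚ t).natDegree = 3 := by rw [← h3]; exact hg
  have h0 := minpoly.aeval ℚ t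
  rw [aeval_eq_sum_range, hn] at h0
  have hc : (minpoly ℚ t).coeff 3 = 1 := by
    have := (minpoly.monic hint).coeff_natDegree
    rwa [hn] at this
  simp only [Finset.sum_range_succ, Finset.sum_range_zero, hc, Algebra.smul_def, eq_ratCast] at h0
  push_cast at h0 ⊢
  linear_combination h0

theorem cubic_conic {t : K} {a b c : ℚ}
    (ht : t ^ 3 = (a : K) * t ^ 2 + b * t + c) {q : ℚ} (hq : q ≠ 0) :
    (t + ((q * (a * b + c) / 2 : ℚ) : K)) ^ 2 -
      (q : K) * (t ^ 2 + (((1 - q * (a ^ 2 + b)) / (2 * q) : ℚ) : K)) ^ 2 =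
      (((q * (a * b + c) / 2) ^ 2 - q * ((1 - q * (a ^ 2 + b)) / (2 * q)) ^ 2 - q * (a * c) : ℚ) : K)
      := by
  have hqK : (q : K) ≠ 0 := by exact_mod_cast hq
  have h4 : t ^ 4 = ((a : K) ^ 2 + b) * t ^ 2 + (a * b + c) * t + a * c := by
    linear_combination (t + (a : K)) * ht
  have e : (q : K) * (t ^ 2 + (((1 - q * (a ^ 2 + b)) / (2 * q) : ℚ) : K)) ^ 2 =
      q * t ^ 4 + (1 - q * (a ^ 2 + b)) * t ^ 2 + q * (((1 - q * (a ^ 2 + b)) / (2 * q) : ℚ) : K) ^ 2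
      := by
    push_cast; field_simp; ring
  rw [e, h4]
  push_cast
  ring

end field

/-- Every cubic field: eighteen irreducible polynomials `f(X^2)` of degree six. -/
theorem even_cubic {K : Type*} [Field K] [NumberField K] (h3 : Module.finrank ℚ K = 3) {p : ℕ}
    (hp : p.Prime) :
    ∃ z : Fin 18 → K, (∀ i, IsIntegral ℤ (z i) ∧ Irreducible ((minpoly ℤ (z i)).comp (X ^ 2)) ∧
      (minpoly ℤ (z i)).natDegree = 3) ∧ ∃ C : ℕ, ∀ h : ℕ → ℤ, CM h → h p = -1 → ∀ x : ℕ, 1 ≤ x →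
        ∃ i, ∀ s : ℤ, (s = 1 ∨ s = -1) → ∃ n : ℕ, x ≤ n ∧ n ≤ C * x ^ 2 ∧
          h (((minpoly ℤ (z i)).comp (X ^ 2)).eval (n : ℤ)).natAbs = s := by
  have hd : Odd (Module.finrank ℚ K) := by rw [h3]; decide
  have h1 : 1 < Module.finrank ℚ K := by rw [h3]; norm_num
  obtain ⟨t, hg, a, b, c, ht⟩ := cubic_gen h3
  have hpq : (0 : ℚ) < p := by exact_mod_cast hp.pos
  have c1 := Chain.of_conic hd h1 hg (gen_sq hd hg) hpq (cubic_conic ht hpq.ne')
  have c2 : Chain (t ^ 2) t (fun h => H h 1) 9 := by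
    have r := cubic_conic ht (q := 1) one_ne_zero
    refine Chain.of_conic hd h1 (gen_sq hd hg) hg (q := 1) one_pos
      (α := (1 - 1 * (a ^ 2 + b)) / (2 * 1)) (β := 1 * (a * b + c) / 2)
      (c := -((1 * (a * b + c) / 2) ^ 2 - 1 * ((1 - 1 * (a ^ 2 + b)) / (2 * 1)) ^ 2 - 1 * (a * c))) ?_
    push_cast at r ⊢
    linear_combination -r
  obtain ⟨y, hy, C, H⟩ := chain_family hd h1 (c1.trans c2)
  refine ⟨y, fun i => ⟨(hy i).1, (hy i).2.2, by rw [(hy i).2.1, h3]⟩, C, fun h hh hhp x hx => ?_⟩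
  apply H h hh _ x hx
  have e1 := H_nat hh 1
  rw [Nat.cast_one] at e1
  simp only [H_nat hh, hhp, e1, hh.one]
  norm_num

/-- The degrees `2 (2 ^ k - 1)`. -/
theorem even_tower (k : ℕ) (hk : 2 ≤ k) {p : ℕ} (hp : p.Prime) :
    ∃ g : Fin (9 * k) → ℤ[X], (∀ i, (g i).Monic ∧ (g i).natDegree = 2 ^ k - 1 ∧
      Irreducible ((g i).comp (X ^ 2))) ∧ ∃ C : ℕ, ∀ h : ℕ → ℤ, CM h → h p = -1 → ∀ x : ℕ, 1 ≤ x →
        ∃ i, ∀ s : ℤ, (s = 1 ∨ s = -1) → ∃ n : ℕ, x ≤ n ∧ n ≤ C * x ^ 2 ∧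
          h (((g i).comp (X ^ 2)).eval (n : ℤ)).natAbs = s := by
  obtain ⟨u, hu, huh⟩ : ∃ u : ℕ, 1 ≤ u ∧ ∀ h : ℕ → ℤ, CM h → h p = -1 →
      h p ^ (k - 1) * h (p * u) = -1 := by
    rcases Nat.even_or_odd k with he | ho
    · refine ⟨p, hp.one_lt.le, fun h hh hhp => ?_⟩
      obtain ⟨j, hj⟩ : ∃ j, k - 1 = 2 * j + 1 := by
        obtain ⟨j, hj⟩ := he
        exact ⟨j - 1, by omega⟩
      rw [hh.mul p p hp.one_lt.le hp.one_lt.le, hhp, hj, pow_succ, pow_mul]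
      norm_num
    · refine ⟨1, le_rfl, fun h hh hhp => ?_⟩
      obtain ⟨j, hj⟩ := ho
      rw [mul_one, hhp, hj, Nat.add_sub_cancel, pow_mul]
      norm_num
  obtain ⟨K, _, _, hfin, w, hw, r1, r2⟩ := Pool.Agent.Lib_helper91.QUI.tower k hk p hp u hu
  have hgen : ∀ i < k, Gen (w i) := by
    intro i hi
    unfold Gen
    rw [← IntermediateField.adjoin.finrank (Algebra.IsIntegral.isIntegral (w i)), hw i hi,
      IntermediateField.finrank_top']
  have hpow' : 4 ≤ 2 ^ k := by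
    calc 4 = 2 ^ 2 := by norm_num
      _ ≤ 2 ^ k := Nat.pow_le_pow_right (by norm_num) hk
  have heven : Even (2 ^ k) := (Nat.even_pow.2 ⟨even_two, by omega⟩)
  have hd : Odd (Module.finrank ℚ K) := by
    rw [hfin]
    obtain ⟨j, hj⟩ := heven
    exact ⟨j - 1, by omega⟩
  have h1 : 1 < Module.finrank ℚ K := by rw [hfin]; omega
  have hpq : (0 : ℚ) < p := by exact_mod_cast hp.pos
  have huq : (0 : ℚ) < u := by exact_mod_cast hu
  have hpK : (p : K) ≠ 0 := by exact_mod_cast hp.ne_zero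
  have huK : (u : K) ≠ 0 := by exact_mod_cast (by omega : u ≠ 0)
  have step : ∀ i, i + 1 < k → Chain (w i) (w (i + 1)) (fun h => H h p) 9 := by
    intro i hi
    refine Chain.of_conic hd h1 (hgen i (by omega)) (hgen (i + 1) hi) hpq (α := 0)
      (β := 1 / (2 * p)) (c := -1 / (4 * p)) ?_
    push_cast
    rw [add_zero, r1 i hi]
    field_simp
    ring
  have last : Chain (w (k - 1)) (w 0) (fun h => H h ((p : ℚ) * u)) 9 := by
    refine Chain.of_conic hd h1 (hgen (k - 1) (by omega)) (hgen 0 (by omega)) (by positivity) (α := 0)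
      (β := 1 / (2 * u)) (c := -p / (4 * u)) ?_
    push_cast
    rw [add_zero, r2]
    field_simp
    ring
  have chain : ∀ j, 1 ≤ j → j < k → Chain (w 0) (w j) (fun h => H h p ^ j) (9 * j) := by
    intro j hj
    induction j, hj using Nat.le_induction with
    | base =>
      intro hk1
      simpa using step 0 hk1
    | succ j hj ih =>
      intro hj2
      have := (ih (by omega)).trans (step j hj2)
      simpa [pow_succ, mul_add] using this
  have full : Chain (w 0) (w 0) (fun h => H h p ^ (k - 1) * H h ((p : ℚ) * u)) (9 * k) := by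
    have := (chain (k - 1) (by omega) (by omega)).trans last
    have e : 9 * (k - 1) + 9 = 9 * k := by omega
    rwa [e] at this
  obtain ⟨y, hy, C, H⟩ := chain_family hd h1 full
  refine ⟨fun i => minpoly ℤ (y i), fun i => ⟨minpoly.monic (hy i).1, by rw [(hy i).2.1, hfin],
    (hy i).2.2⟩, C, fun h hh hhp x hx => ?_⟩
  apply H h hh _ x hx
  have e1 : ((p : ℚ) * u) = ((p * u : ℕ) : ℚ) := by push_cast; rfl
  simp only [e1, H_nat hh, huh h hh hhp]
  norm_num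

end Pool.Agent.Lib_helper48.EVEN
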